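import Pool.Agent.W84.T.Defs
import Pool.Agent.W29.GA.Ve

/-!
# Project T8, part LOW: logarithmic lower bound for the triangles with given sign
-/

set_option autoImplicit false

namespace Pool.Agent.W131.T8Low

open Finset Filter
open Pool.Agent.H376R2.MR
open Pool.Agent.W78.GA
open Pool.Agent.W78.EC (Gi SP)
open Pool.Agent.W84.T

theorem hD : (0 : ℤ) ^ 2 < 4 * 1 := by norm_num

theorem card_pball {R : ℝ} (hR : 1 ≤ R) : ((pball 0 1 R).card : ℝ) ≤ 9 * R := by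
  have hs1 : 1 ≤ Real.sqrt R := Real.one_le_sqrt.2 hR
  have hsq : Real.sqrt R * Real.sqrt R = R := Real.mul_self_sqrt (by linarith)
  set F : ℤ := ⌊Real.sqrt R⌋ with hF
  have hF0 : 0 ≤ F := Int.floor_nonneg.2 (Real.sqrt_nonneg _)
  have hFle : (F : ℝ) ≤ Real.sqrt R := Int.floor_le _
  have key : ∀ x : ℤ, ((x : ℝ)) ^ 2 ≤ R → x ∈ Icc (-F) F := by
    intro x hx
    have h1 : |(x : ℝ)| ≤ Real.sqrt R := Real.abs_le_sqrt hx
    rw [abs_le] at h1
    rw [mem_Icc]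
    constructor
    · have : -x ≤ F := by
        rw [hF, Int.le_floor]
        push_cast
        linarith
      linarith
    · rw [hF, Int.le_floor]
      exact h1.2
  have h2 : (pball 0 1 R).card ≤ ((Icc (-F) F) ×ˢ (Icc (-F) F)).card := by
    apply Finset.card_le_card_of_injOn (fun z : Gi => (z.re, z.im))
    · intro z hz
      rw [mem_coe, mem_pball hD] at hz
      have h3 := nm_castR hD z
      push_cast at h3
      have h4 := hz.2
      rw [h3] at h4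
      rw [mem_coe, mem_product]
      refine ⟨key _ ?_, key _ ?_⟩
      · change (z.re : ℝ) ^ 2 ≤ R
        nlinarith [sq_nonneg (z.im : ℝ)]
      · change (z.im : ℝ) ^ 2 ≤ R
        nlinarith [sq_nonneg (z.re : ℝ)]
    · intro z _ z' _ h
      exact QuadraticAlgebra.ext (congrArg Prod.fst h) (congrArg Prod.snd h)
  have h3 : ((Icc (-F) F).card : ℝ) ≤ 3 * Real.sqrt R := by
    rw [Int.card_Icc]
    have h4 : ((F + 1 - -F).toNat : ℤ) = 2 * F + 1 := by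
      rw [Int.toNat_of_nonneg (by linarith)]
      ring
    have h5 : (((F + 1 - -F).toNat : ℕ) : ℝ) = 2 * (F : ℝ) + 1 := by exact_mod_cast h4
    rw [h5]
    linarith
  rw [card_product] at h2
  calc ((pball 0 1 R).card : ℝ) ≤ ((Icc (-F) F).card : ℝ) * ((Icc (-F) F).card : ℝ) := by
        exact_mod_cast h2
    _ ≤ (3 * Real.sqrt R) * (3 * Real.sqrt R) := by
        gcongr
    _ = 9 * (Real.sqrt R * Real.sqrt R) := by ring
    _ = 9 * R := by rw [hsq]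

theorem mem_dedge' {X : ℝ} {e : Gi × Gi} :
    e ∈ dedge 0 1 X ↔ e.1 ∈ pball 0 1 X ∧ e.2 ∈ pball 0 1 X ∧ dt e.1 e.2 = 1 := by
  simp [dedge, and_assoc]

open scoped Classical in
theorem many (h : S_TRI) : ∃ δ s X₁ : ℝ, 0 < δ ∧ 0 < s ∧ s < 1 ∧ 1 ≤ X₁ ∧ ∀ X : ℝ, X₁ ≤ X →
    ∀ c : ℤ, (c = 1 ∨ c = -1) → δ * X ≤ (((TS X).filter (fun e => tg e = c ∧
      s * X < (nm e.1 : ℝ) ∧ s * X < (nm e.2 : ℝ))).card : ℝ) := by
  obtain ⟨δ, hδ, X₀, hX₀⟩ := h
  obtain ⟨C, hC, hve⟩ := Pool.Agent.W29.GA.ve hD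
  obtain ⟨r, hr0, hr1, hr2⟩ : ∃ r : ℝ, 0 < r ∧ r ≤ 1 / 2 ∧ 10 * C * r ≤ δ / 2 := by
    refine ⟨min (1 / 2) (δ / (20 * C)), by positivity, min_le_left _ _, ?_⟩
    have h1 : min (1 / 2) (δ / (20 * C)) ≤ δ / (20 * C) := min_le_right _ _
    calc 10 * C * min (1 / 2) (δ / (20 * C)) ≤ 10 * C * (δ / (20 * C)) := by gcongr
      _ = δ / 2 := by
          field_simp
          ring
  refine ⟨δ / 2, r ^ 2, max X₀ (1 / r ^ 2), by positivity, by positivity, by nlinarith, ?_, ?_⟩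
  · refine le_trans ?_ (le_max_right _ _)
    rw [le_div_iff₀ (by positivity)]
    nlinarith
  · intro X hX c hc
    have hXa : X₀ ≤ X := (le_max_left _ _).trans hX
    have hXb : 1 / r ^ 2 ≤ X := (le_max_right _ _).trans hX
    have hrX : 1 ≤ r ^ 2 * X := by
      rw [div_le_iff₀ (by positivity)] at hXb
      linarith
    have hX1 : 1 ≤ X := by
      have : r ^ 2 ≤ 1 := by nlinarith
      nlinarith
    have h1 := hX₀ X hXa c hc
    have h2 := hve r X (pball 0 1 (r ^ 2 * X)) hr0 (by linarith) hX1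
    have h3 : ((pball 0 1 (r ^ 2 * X) ∩ pball 0 1 X).card : ℝ) ≤ 9 * (r ^ 2 * X) := by
      refine le_trans ?_ (card_pball hrX)
      exact_mod_cast card_le_card inter_subset_left
    have h4 : C * (r * X + ((pball 0 1 (r ^ 2 * X) ∩ pball 0 1 X).card : ℝ) / r) ≤
        δ / 2 * X := by
      have h5 : ((pball 0 1 (r ^ 2 * X) ∩ pball 0 1 X).card : ℝ) / r ≤ 9 * (r * X) := by
        rw [div_le_iff₀ hr0]
        linarith
      calc C * (r * X + ((pball 0 1 (r ^ 2 * X) ∩ pball 0 1 X).card : ℝ) / r)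
          ≤ C * (r * X + 9 * (r * X)) := by gcongr
        _ = 10 * C * r * X := by ring
        _ ≤ δ / 2 * X := by gcongr
    have hsub : (TS X).filter (fun e => tg e = c) ⊆
        ((TS X).filter (fun e => tg e = c ∧ r ^ 2 * X < (nm e.1 : ℝ) ∧
          r ^ 2 * X < (nm e.2 : ℝ))) ∪
        (dedge 0 1 X).filter (fun e => e.1 ∈ pball 0 1 (r ^ 2 * X) ∨
          e.2 ∈ pball 0 1 (r ^ 2 * X)) := by
      intro e he
      rw [mem_filter] at he
      rw [mem_union, mem_filter, mem_filter]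
      by_cases hcond : r ^ 2 * X < (nm e.1 : ℝ) ∧ r ^ 2 * X < (nm e.2 : ℝ)
      · exact Or.inl ⟨he.1, he.2, hcond⟩
      · right
        have hded : e ∈ dedge 0 1 X := by
          have h7 := he.1
          unfold TS at h7
          exact (mem_filter.1 h7).1
        obtain ⟨p1, p2, -⟩ := mem_dedge'.1 hded
        refine ⟨hded, ?_⟩
        rw [mem_pball hD, mem_pball hD]
        rw [mem_pball hD] at p1 p2
        by_cases h8 : r ^ 2 * X < (nm e.1 : ℝ)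
        · right
          exact ⟨p2.1, not_lt.1 fun h9 => hcond ⟨h8, h9⟩⟩
        · left
          exact ⟨p1.1, not_lt.1 h8⟩
    have h5 : (((TS X).filter (fun e => tg e = c)).card : ℝ) ≤
        (((TS X).filter (fun e => tg e = c ∧ r ^ 2 * X < (nm e.1 : ℝ) ∧
          r ^ 2 * X < (nm e.2 : ℝ))).card : ℝ) +
        (((dedge 0 1 X).filter (fun e => e.1 ∈ pball 0 1 (r ^ 2 * X) ∨
          e.2 ∈ pball 0 1 (r ^ 2 * X))).card : ℝ) := by
      exact_mod_cast (card_le_card hsub).trans (card_union_le _ _)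
    have h6 := h2.trans h4
    linarith

theorem t3_eq {e : Gi × Gi} (h : dt e.1 e.2 = 1) (hip : 0 < ip e.1 e.2) :
    t3 (nm e.1, nm e.2) = nm (e.1 + e.2) := by
  have h1 := NN_eq hD h
  unfold NN at h1
  have h2 := nm_add hD e.1 e.2
  obtain ⟨n, hn⟩ := Int.eq_ofNat_of_zero_le hip.le
  rw [hn] at h1 h2
  have h3 : nm e.1 * nm e.2 = n ^ 2 + 1 := by
    zify
    push_cast at h1
    linarith
  have h4 : nm (e.1 + e.2) = nm e.1 + nm e.2 + 2 * n := by
    zify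
    linarith
  unfold t3
  change nm e.1 + nm e.2 + 2 * Nat.sqrt (nm e.1 * nm e.2 - 1) = _
  rw [h3, h4, Nat.add_sub_cancel, Nat.sqrt_eq']

open scoped Classical in
theorem pairs (h1 : Pool.Agent.W78.EC.S_CORR) {δ s : ℝ} {c : ℤ} {M : ℕ} (hM : 1 ≤ M)
    (h : δ * M ≤ (((TS (M : ℝ)).filter (fun e => tg e = c ∧
      s * M < (nm e.1 : ℝ) ∧ s * M < (nm e.2 : ℝ))).card : ℝ)) :
    δ / 4 * M ≤ (((SP M).filter (fun p => lam p.1 * lam p.2 * lam (t3 p) = c ∧
      s * M < (p.1 : ℝ) ∧ s * M < (p.2 : ℝ))).card : ℝ) := by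
  have hM' : (1 : ℝ) ≤ M := by exact_mod_cast hM
  have key := h1 (M : ℝ) (fun d d' => if lam d * lam d' * lam (t3 (d, d')) = c ∧
      s * M < (d : ℝ) ∧ s * M < (d' : ℝ) then 1 else 0) hM'
  rw [Nat.floor_natCast] at key
  have h2 : (((TS (M : ℝ)).filter (fun e => tg e = c ∧
      s * M < (nm e.1 : ℝ) ∧ s * M < (nm e.2 : ℝ))).card : ℝ) ≤
      ∑ e ∈ (dedge 0 1 (M : ℝ)).filter (fun e => 0 < ip e.1 e.2),
        (if lam (nm e.1) * lam (nm e.2) * lam (t3 (nm e.1, nm e.2)) = c ∧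
          s * M < (nm e.1 : ℝ) ∧ s * M < (nm e.2 : ℝ) then (1 : ℝ) else 0) := by
    have hsub : (TS (M : ℝ)).filter (fun e => tg e = c ∧
        s * M < (nm e.1 : ℝ) ∧ s * M < (nm e.2 : ℝ)) ⊆
        (dedge 0 1 (M : ℝ)).filter (fun e => 0 < ip e.1 e.2) := by
      intro e he
      have h3 := (mem_filter.1 he).1
      unfold TS at h3
      rw [mem_filter] at h3
      exact mem_filter.2 ⟨h3.1, h3.2.1⟩
    refine le_trans ?_ (sum_le_sum_of_subset_of_nonneg hsub fun e _ _ => by split_ifs <;> simp)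
    rw [card_eq_sum_ones]
    push_cast
    refine sum_le_sum fun e he => ?_
    have h3 := mem_filter.1 (hsub he)
    have h4 := (mem_filter.1 he).2
    have h5 := (mem_dedge'.1 h3.1).2.2
    rw [t3_eq h5 h3.2, if_pos]
    exact h4
  have h3 : ∑ p ∈ (SP M).filter (fun p => p ≠ (1, 1)),
      (if lam p.1 * lam p.2 * lam (t3 (p.1, p.2)) = c ∧
        s * M < (p.1 : ℝ) ∧ s * M < (p.2 : ℝ) then (1 : ℝ) else 0) ≤
      (((SP M).filter (fun p => lam p.1 * lam p.2 * lam (t3 p) = c ∧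
      s * M < (p.1 : ℝ) ∧ s * M < (p.2 : ℝ))).card : ℝ) := by
    refine le_trans (sum_le_sum_of_subset_of_nonneg (filter_subset _ _)
      fun e _ _ => by split_ifs <;> simp) ?_
    rw [sum_boole]
  rw [key] at h2
  have h4 := h.trans h2
  linarith

theorem harm (M1 N : ℕ) : Real.log N - M1 ≤ ∑ M ∈ Icc M1 N, 1 / (M : ℝ) := by
  have h1 := log_add_one_le_harmonic N
  rw [harmonic_eq_sum_Icc] at h1
  push_cast at h1
  have h2 : Icc 1 N ⊆ Icc 1 M1 ∪ Icc M1 N := by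
    intro x hx
    rw [mem_union, mem_Icc, mem_Icc]
    rw [mem_Icc] at hx
    omega
  have h3 : ∑ i ∈ Icc 1 N, ((i : ℝ))⁻¹ ≤ ∑ i ∈ Icc 1 M1, ((i : ℝ))⁻¹ +
      ∑ i ∈ Icc M1 N, ((i : ℝ))⁻¹ :=
    (sum_le_sum_of_subset_of_nonneg h2 fun i _ _ => by positivity).trans (by
      rw [← sum_union_inter]
      have : 0 ≤ ∑ i ∈ Icc 1 M1 ∩ Icc M1 N, ((i : ℝ))⁻¹ := sum_nonneg fun i _ => by positivity
      linarith)
  have h4 : ∑ i ∈ Icc 1 M1, ((i : ℝ))⁻¹ ≤ M1 := by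
    calc ∑ i ∈ Icc 1 M1, ((i : ℝ))⁻¹ ≤ ∑ i ∈ Icc 1 M1, (1 : ℝ) := by
          refine sum_le_sum fun i hi => ?_
          rw [mem_Icc] at hi
          exact inv_le_one_of_one_le₀ (by exact_mod_cast hi.1)
      _ = M1 := by simp
  have h5 : Real.log N ≤ Real.log (N + 1) := by
    rcases Nat.eq_zero_or_pos N with h | h
    · subst h
      simp
    · exact Real.log_le_log (by exact_mod_cast h) (by linarith)
  simp only [one_div]
  linarith

theorem inner (M1 N m : ℕ) (hm : 1 ≤ m) :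
    ∑ M ∈ Icc M1 N, (if m ≤ M then 1 / (M : ℝ) ^ 2 else 0) ≤ 2 / (m : ℝ) := by
  have h1 := sum_Ioo_inv_sq_le (α := ℝ) (m - 1) (N + 1)
  have h2 : (((m - 1 : ℕ) : ℝ) + 1) = m := by
    have : m - 1 + 1 = m := by omega
    exact_mod_cast this
  rw [h2] at h1
  refine le_trans ?_ h1
  rw [← sum_filter]
  simp only [one_div]
  refine sum_le_sum_of_subset_of_nonneg ?_ fun i _ _ => by positivity
  intro M hM
  rw [mem_filter, mem_Icc] at hM
  rw [mem_Ioo]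
  omega

theorem low (h : S_TRI) (h1 : Pool.Agent.W78.EC.S_CORR) : S_LOW := by
  classical
  obtain ⟨δ, s, X₁, hδ, hs0, hs1, hX₁, hmany⟩ := many h
  have hA1 : 1 < 1 / s := by
    rw [lt_div_iff₀ hs0]
    linarith
  refine ⟨δ / 16, 1 / s, by positivity, hA1, ⌈Real.exp (2 * (⌈X₁⌉₊ : ℝ))⌉₊ + 1, ?_⟩
  intro N hN c hc
  set M1 := ⌈X₁⌉₊ with hM1
  have hM1X : X₁ ≤ M1 := Nat.le_ceil _
  set T := (SP N).filter (fun p =>
    lam p.1 * lam p.2 * lam (t3 p) = c ∧ 1 / (1 / s) ≤ (p.2 : ℝ) / p.1 ∧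
      (p.2 : ℝ) / p.1 ≤ 1 / s) with hT
  have hSP : ∀ {K : ℕ} {p : ℕ × ℕ}, p ∈ SP K → 1 ≤ p.1 ∧ p.1 ≤ K ∧ 1 ≤ p.2 ∧ p.2 ≤ K ∧
      ∃ n : ℕ, p.1 * p.2 = n ^ 2 + 1 := by
    intro K p hp
    unfold Pool.Agent.W78.EC.SP at hp
    rw [mem_filter, mem_product, mem_Icc, mem_Icc] at hp
    exact ⟨hp.1.1.1, hp.1.1.2, hp.1.2.1, hp.1.2.2, hp.2⟩
  -- each scale
  have hsc : ∀ M ∈ Icc M1 N, δ / 4 * (1 / (M : ℝ)) ≤
      ∑ p ∈ T, (if p.1 ≤ M then 1 / (M : ℝ) ^ 2 else 0) := by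
    intro M hM
    rw [mem_Icc] at hM
    have hMX : X₁ ≤ (M : ℝ) := hM1X.trans (by exact_mod_cast hM.1)
    have hM0 : (1 : ℝ) ≤ M := hX₁.trans hMX
    have hM0' : 1 ≤ M := by exact_mod_cast hM0
    have h2 := pairs h1 hM0' (hmany M hMX c hc)
    have hsub : (SP M).filter (fun p => lam p.1 * lam p.2 * lam (t3 p) = c ∧
        s * M < (p.1 : ℝ) ∧ s * M < (p.2 : ℝ)) ⊆ T.filter (fun p => p.1 ≤ M) := by
      intro p hp
      rw [mem_filter] at hp
      obtain ⟨hp1, hp2, hp3, hp4⟩ := hp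
      obtain ⟨a1, a2, a3, a4, a5⟩ := hSP hp1
      have b1 : (0 : ℝ) < p.1 := by exact_mod_cast a1
      have b2 : (p.1 : ℝ) ≤ M := by exact_mod_cast a2
      have b4 : (p.2 : ℝ) ≤ M := by exact_mod_cast a4
      rw [mem_filter, hT, mem_filter]
      refine ⟨⟨?_, hp2, ?_, ?_⟩, a2⟩
      · unfold Pool.Agent.W78.EC.SP
        rw [mem_filter, mem_product, mem_Icc, mem_Icc]
        exact ⟨⟨⟨a1, a2.trans hM.2⟩, a3, a4.trans hM.2⟩, a5⟩
      · rw [one_div_one_div, le_div_iff₀ b1]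
        have : s * (p.1 : ℝ) ≤ s * M := by gcongr
        linarith
      · rw [div_le_div_iff₀ b1 hs0]
        have : s * (p.2 : ℝ) ≤ s * M := by gcongr
        linarith
    have h3 : (((SP M).filter (fun p => lam p.1 * lam p.2 * lam (t3 p) = c ∧
        s * M < (p.1 : ℝ) ∧ s * M < (p.2 : ℝ))).card : ℝ) ≤
        ((T.filter (fun p => p.1 ≤ M)).card : ℝ) := by exact_mod_cast card_le_card hsub
    have h4 : ∑ p ∈ T, (if p.1 ≤ M then 1 / (M : ℝ) ^ 2 else 0) =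
        ((T.filter (fun p => p.1 ≤ M)).card : ℝ) * (1 / (M : ℝ) ^ 2) := by
      rw [← sum_filter, sum_const, nsmul_eq_mul]
    rw [h4]
    calc δ / 4 * (1 / (M : ℝ)) = (δ / 4 * M) * (1 / (M : ℝ) ^ 2) := by
          field_simp
      _ ≤ _ := by
          apply mul_le_mul_of_nonneg_right (h2.trans h3) (by positivity)
  have hsum : δ / 4 * ∑ M ∈ Icc M1 N, 1 / (M : ℝ) ≤ 2 * ∑ p ∈ T, 1 / (p.1 : ℝ) := by
    rw [mul_sum]
    refine (sum_le_sum hsc).trans ?_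
    rw [sum_comm, mul_sum]
    refine sum_le_sum fun p hp => ?_
    have h5 : 1 ≤ p.1 := (hSP (mem_filter.1 hp).1).1
    refine (inner M1 N p.1 h5).trans (le_of_eq ?_)
    ring
  have hh := harm M1 N
  have hlog : 2 * (M1 : ℝ) ≤ Real.log N := by
    have h6 : Real.exp (2 * (M1 : ℝ)) ≤ N := by
      refine (Nat.le_ceil _).trans ?_
      exact_mod_cast (by omega : ⌈Real.exp (2 * (M1 : ℝ))⌉₊ ≤ N)
    have h7 : (0 : ℝ) < N := lt_of_lt_of_le (Real.exp_pos _) h6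
    rw [Real.le_log_iff_exp_le h7]
    exact h6
  have h8 : δ / 4 * (Real.log N / 2) ≤ δ / 4 * ∑ M ∈ Icc M1 N, 1 / (M : ℝ) := by
    apply mul_le_mul_of_nonneg_left _ (by positivity)
    linarith
  have h9 : δ / 16 * Real.log N ≤ ∑ p ∈ T, 1 / (p.1 : ℝ) := by linarith
  convert h9 using 2

end Pool.Agent.W131.T8Low
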